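import Pool.Agent.H37.DL.Defs

/-!
Deterministic facts on last passage percolation: locality, monotonicity, shifts, reflection,
quadrangle inequality.
-/

namespace Pool.Agent.H74.DL

open Pool.Agent.H37.DL

theorem lpp_00 (w : ℤ → ℕ → ℝ) (a : ℤ) : lpp w a 0 0 = w a 0 := by
  rw [lpp]

theorem lpp_s0 (w : ℤ → ℕ → ℝ) (a : ℤ) (k : ℕ) :
    lpp w a (k + 1) 0 = lpp w a k 0 + w (a + (k + 1)) 0 := by
  rw [lpp]

theorem lpp_0s (w : ℤ → ℕ → ℝ) (a : ℤ) (j : ℕ) :
    lpp w a 0 (j + 1) = lpp w a 0 j + w a (j + 1) := by
  rw [lpp]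

theorem lpp_ss (w : ℤ → ℕ → ℝ) (a : ℤ) (k j : ℕ) :
    lpp w a (k + 1) (j + 1) =
      max (lpp w a k (j + 1)) (lpp w a (k + 1) j) + w (a + (k + 1)) (j + 1) := by
  rw [lpp]

/-- Locality. -/
theorem lpp_congr {w w' : ℤ → ℕ → ℝ} {a b : ℤ} {k j : ℕ}
    (h : ∀ i : ℕ, i ≤ k → ∀ l ≤ j, w (a + i) l = w' (b + i) l) :
    lpp w a k j = lpp w' b k j := by
  induction k generalizing j with
  | zero =>
    induction j with
    | zero =>
      rw [lpp_00, lpp_00]
      simpa using h 0 le_rfl 0 le_rfl
    | succ j ihj =>
      rw [lpp_0s, lpp_0s, ihj (fun i hi l hl => h i hi l (by omega))]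
      have := h 0 le_rfl (j + 1) le_rfl
      simp only [Nat.cast_zero, add_zero] at this
      rw [this]
  | succ k ihk =>
    induction j with
    | zero =>
      rw [lpp_s0, lpp_s0, ihk (fun i hi l hl => h i (by omega) l hl)]
      have := h (k + 1) le_rfl 0 le_rfl
      push_cast at this
      rw [this]
    | succ j ihj =>
      rw [lpp_ss, lpp_ss, ihk (fun i hi l hl => h i (by omega) l hl),
        ihj (fun i hi l hl => h i hi l (by omega))]
      have := h (k + 1) le_rfl (j + 1) le_rfl
      push_cast at this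
      rw [this]

/-- Monotonicity in the weights. -/
theorem lpp_mono {w w' : ℤ → ℕ → ℝ} {a : ℤ} {k j : ℕ}
    (h : ∀ i : ℕ, i ≤ k → ∀ l ≤ j, w (a + i) l ≤ w' (a + i) l) :
    lpp w a k j ≤ lpp w' a k j := by
  induction k generalizing j with
  | zero =>
    induction j with
    | zero =>
      rw [lpp_00, lpp_00]
      simpa using h 0 le_rfl 0 le_rfl
    | succ j ihj =>
      rw [lpp_0s, lpp_0s]
      have := h 0 le_rfl (j + 1) le_rfl
      simp only [Nat.cast_zero, add_zero] at this
      exact add_le_add (ihj (fun i hi l hl => h i hi l (by omega))) this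
  | succ k ihk =>
    induction j with
    | zero =>
      rw [lpp_s0, lpp_s0]
      have := h (k + 1) le_rfl 0 le_rfl
      push_cast at this
      exact add_le_add (ihk (fun i hi l hl => h i (by omega) l hl)) this
    | succ j ihj =>
      rw [lpp_ss, lpp_ss]
      have := h (k + 1) le_rfl (j + 1) le_rfl
      push_cast at this
      exact add_le_add (max_le_max (ihk (fun i hi l hl => h i (by omega) l hl))
        (ihj (fun i hi l hl => h i hi l (by omega)))) this

/-- Reversed recursion. -/
theorem lpp_rev_s0 (w : ℤ → ℕ → ℝ) (a : ℤ) (k : ℕ) :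
    lpp w a (k + 1) 0 = w a 0 + lpp w (a + 1) k 0 := by
  induction k with
  | zero =>
    rw [lpp_s0, lpp_00, lpp_00]
    simp
  | succ k ih =>
    rw [lpp_s0, ih, lpp_s0 w (a + 1), add_assoc]
    congr 3
    push_cast; ring

theorem lpp_rev_0s (w : ℤ → ℕ → ℝ) (a : ℤ) (j : ℕ) :
    lpp w a 0 (j + 1) = w a 0 + lpp (fun i l => w i (l + 1)) a 0 j := by
  induction j with
  | zero =>
    rw [lpp_0s, lpp_00, lpp_00]
  | succ j ih =>
    rw [lpp_0s, ih, lpp_0s, add_assoc]

theorem lpp_rev_ss (w : ℤ → ℕ → ℝ) (a : ℤ) (k j : ℕ) :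
    lpp w a (k + 1) (j + 1) =
      w a 0 + max (lpp w (a + 1) k (j + 1)) (lpp (fun i l => w i (l + 1)) a (k + 1) j) := by
  induction k generalizing j with
  | zero =>
    induction j with
    | zero =>
      have h1 := lpp_ss w a 0 0
      have h2 := lpp_rev_0s w a 0
      have h3 := lpp_rev_s0 w a 0
      have h4 := lpp_0s w (a + 1) 0
      have h5 := lpp_s0 (fun i l => w i (l + 1)) a 0
      have e : (a + ((0 : ℕ) + 1) : ℤ) = a + 1 := by push_cast; ring
      rw [e] at h1 h5
      rw [h1, h2, h3, h4, h5]
      simp only [max_def]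
      split_ifs <;> linarith
    | succ j ihj =>
      have h1 := lpp_ss w a 0 (j + 1)
      have h2 := lpp_rev_0s w a (j + 1)
      have h4 := lpp_0s w (a + 1) (j + 1)
      have h5 := lpp_ss (fun i l => w i (l + 1)) a 0 j
      have e : (a + ((0 : ℕ) + 1) : ℤ) = a + 1 := by push_cast; ring
      rw [e] at h1 h5
      rw [h1, h2, ihj, h4, h5]
      simp only [max_def]
      split_ifs <;> linarith
  | succ k ihk =>
    have e : (a + 1 + ((k : ℕ) + 1) : ℤ) = a + ((k + 1 : ℕ) + 1) := by push_cast; ring
    induction j with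
    | zero =>
      have h1 := lpp_ss w a (k + 1) 0
      have h2 := ihk 0
      have h3 := lpp_rev_s0 w a (k + 1)
      have h4 := lpp_ss w (a + 1) k 0
      have h5 := lpp_s0 (fun i l => w i (l + 1)) a (k + 1)
      rw [e] at h4
      rw [h1, h2, h3, h4, h5]
      simp only [max_def]
      split_ifs <;> linarith
    | succ j ihj =>
      have h1 := lpp_ss w a (k + 1) (j + 1)
      have h2 := ihk (j + 1)
      have h4 := lpp_ss w (a + 1) k (j + 1)
      have h5 := lpp_ss (fun i l => w i (l + 1)) a (k + 1) j
      rw [e] at h4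
      rw [h1, h2, ihj, h4, h5, max_add_add_left, max_max_max_comm, max_add_add_right]
      ring

/-- Reflection. -/
theorem lpp_reflect {w w' : ℤ → ℕ → ℝ} {a b : ℤ} {k j : ℕ}
    (h : ∀ i : ℕ, i ≤ k → ∀ l ≤ j, w' (b + i) l = w (a + (k - i : ℕ)) (j - l)) :
    lpp w' b k j = lpp w a k j := by
  induction k generalizing w a j with
  | zero =>
    induction j generalizing w with
    | zero =>
      rw [lpp_00, lpp_00]
      simpa using h 0 le_rfl 0 le_rfl
    | succ j ihj =>
      rw [lpp_0s, lpp_rev_0s, add_comm]
      have h0 := h 0 le_rfl (j + 1) le_rfl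
      simp only [Nat.cast_zero, add_zero, Nat.sub_self] at h0
      rw [h0, ihj (w := fun i l => w i (l + 1))]
      intro i hi l hl
      have := h i hi l (by omega)
      rw [this]
      congr 1
      omega
  | succ k ihk =>
    induction j generalizing w with
    | zero =>
      rw [lpp_s0, lpp_rev_s0, add_comm]
      have h0 := h (k + 1) le_rfl 0 le_rfl
      simp only [Nat.sub_self, Nat.cast_zero, add_zero] at h0
      push_cast at h0
      rw [h0, ihk (w := w) (a := a + 1)]
      intro i hi l hl
      have := h i (by omega) l hl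
      rw [this]
      congr 1
      push_cast [Nat.cast_sub hi, Nat.cast_sub (show i ≤ k + 1 by omega)]
      ring
    | succ j ihj =>
      rw [lpp_ss, lpp_rev_ss, add_comm]
      have h0 := h (k + 1) le_rfl (j + 1) le_rfl
      simp only [Nat.sub_self, Nat.cast_zero, add_zero] at h0
      push_cast at h0
      rw [h0, ihk (w := w) (a := a + 1), ihj (w := fun i l => w i (l + 1))]
      · intro i hi l hl
        have := h i hi l (by omega)
        rw [this]
        congr 1
        omega
      · intro i hi l hl
        have := h i (by omega) l hl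
        rw [this]
        congr 1
        push_cast [Nat.cast_sub hi, Nat.cast_sub (show i ≤ k + 1 by omega)]
        ring

theorem max_sub_max_mem {A B A' B' : ℝ} (h : A - A' ≤ B - B') :
    A - A' ≤ max A B - max A' B' ∧ max A B - max A' B' ≤ B - B' := by
  constructor
  · rcases le_total A' B' with h1 | h1
    · rw [max_eq_right h1]
      have := le_max_right A B
      linarith
    · rw [max_eq_left h1]
      have := le_max_left A B
      linarith
  · rcases le_total A B with h1 | h1
    · rw [max_eq_right h1]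
      have := le_max_right A' B'
      linarith
    · rw [max_eq_left h1]
      have := le_max_left A' B'
      linarith

/-- The difference of the passage times from `a` and from `a + d`. -/
theorem quad_aux (w : ℤ → ℕ → ℝ) (a : ℤ) (d : ℕ) (j : ℕ) : ∀ i : ℕ,
    (lpp w a (d + (i + 1)) j - lpp w (a + d) (i + 1) j ≤ lpp w a (d + i) j - lpp w (a + d) i j) ∧
    (lpp w a (d + i) j - lpp w (a + d) i j ≤
      lpp w a (d + i) (j + 1) - lpp w (a + d) i (j + 1)) := by
  have step : ∀ j : ℕ, (∀ i, lpp w a (d + (i + 1)) j - lpp w (a + d) (i + 1) j ≤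
      lpp w a (d + i) j - lpp w (a + d) i j) →
      (∀ i, lpp w a (d + i) j - lpp w (a + d) i j ≤
        lpp w a (d + i) (j + 1) - lpp w (a + d) i (j + 1)) ∧
      (∀ i, lpp w a (d + (i + 1)) (j + 1) - lpp w (a + d) (i + 1) (j + 1) ≤
        lpp w a (d + i) (j + 1) - lpp w (a + d) i (j + 1)) := by
    intro j hA
    have key : ∀ i, lpp w a (d + i) j - lpp w (a + d) i j ≤
        lpp w a (d + i) (j + 1) - lpp w (a + d) i (j + 1) →
        lpp w a (d + (i + 1)) j - lpp w (a + d) (i + 1) j ≤
          lpp w a (d + (i + 1)) (j + 1) - lpp w (a + d) (i + 1) (j + 1) ∧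
        lpp w a (d + (i + 1)) (j + 1) - lpp w (a + d) (i + 1) (j + 1) ≤
          lpp w a (d + i) (j + 1) - lpp w (a + d) i (j + 1) := by
      intro i hB
      have e1 : d + (i + 1) = (d + i) + 1 := by ring
      rw [e1, lpp_ss w a (d + i) j, lpp_ss w (a + d) i j]
      have e2 : (a + (((d + i : ℕ) : ℤ) + 1) : ℤ) = a + d + (i + 1) := by push_cast; ring
      rw [e2]
      have h1 : lpp w a (d + i + 1) j - lpp w (a + d) (i + 1) j ≤
          lpp w a (d + i) (j + 1) - lpp w (a + d) i (j + 1) := by
        have := hA i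
        rw [e1] at this
        linarith
      have := max_sub_max_mem h1
      rw [max_comm (lpp w a (d + i) (j + 1)), max_comm (lpp w (a + d) i (j + 1))]
      constructor <;> linarith [this.1, this.2]
    have hB : ∀ i, lpp w a (d + i) j - lpp w (a + d) i j ≤
        lpp w a (d + i) (j + 1) - lpp w (a + d) i (j + 1) := by
      intro i
      induction i with
      | zero =>
        rw [lpp_0s]
        cases d with
        | zero =>
          simp only [add_zero, Nat.cast_zero]
          rw [lpp_0s]
          linarith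
        | succ d =>
          have e1 : d + 1 + 0 = d + 1 := rfl
          rw [e1, lpp_ss]
          have := le_max_right (lpp w a d (j + 1)) (lpp w a (d + 1) j)
          have e2 : (a + ((d : ℤ) + 1) : ℤ) = a + ((d + 1 : ℕ) : ℤ) := by push_cast; ring
          rw [e2]
          linarith
      | succ i ih => exact (key i ih).1
    exact ⟨hB, fun i => (key i (hB i)).2⟩
  have hA : ∀ j i, lpp w a (d + (i + 1)) j - lpp w (a + d) (i + 1) j ≤
      lpp w a (d + i) j - lpp w (a + d) i j := by
    intro j
    induction j with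
    | zero =>
      intro i
      have e1 : d + (i + 1) = (d + i) + 1 := by ring
      rw [e1, lpp_s0, lpp_s0]
      have e2 : (a + (((d + i : ℕ) : ℤ) + 1) : ℤ) = a + d + (i + 1) := by push_cast; ring
      rw [e2]
      linarith
    | succ j ih => exact (step j ih).2
  intro i
  exact ⟨hA j i, (step j (hA j)).1 i⟩

/-- Quadrangle inequality, with start columns `a ≤ a + d` and end columns
`a + d + i ≤ a + d + i + e`. -/
theorem lpp_quad (w : ℤ → ℕ → ℝ) (a : ℤ) (d i e j : ℕ) :
    lpp w a (d + (i + e)) j + lpp w (a + d) i j ≤ lpp w a (d + i) j + lpp w (a + d) (i + e) j := by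
  induction e with
  | zero => simp
  | succ e ih =>
    have := (quad_aux w a d j (i + e)).1
    have e1 : i + (e + 1) = i + e + 1 := by ring
    rw [e1]
    linarith

/-- Measurability. -/
theorem measurable_lpp {Ω : Type*} [MeasurableSpace Ω] {w : Ω → ℤ → ℕ → ℝ}
    (hw : ∀ i j, Measurable fun ω => w ω i j) (a : ℤ) (k j : ℕ) :
    Measurable fun ω => lpp (w ω) a k j := by
  induction k generalizing j with
  | zero =>
    induction j with
    | zero =>
      simp only [lpp_00]
      exact hw a 0
    | succ j ihj =>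
      simp only [lpp_0s]
      exact ihj.add (hw _ _)
  | succ k ihk =>
    induction j with
    | zero =>
      simp only [lpp_s0]
      exact (ihk 0).add (hw _ _)
    | succ j ihj =>
      simp only [lpp_ss]
      exact ((ihk (j + 1)).max ihj).add (hw _ _)

theorem measurable_Sn {Ω : Type*} [MeasurableSpace Ω] {w : Ω → ℤ → ℕ → ℝ}
    (hw : ∀ i j, Measurable fun ω => w ω i j) (n : ℕ) (p : ℝ × ℝ) :
    Measurable fun ω => Sn (w ω) n p := by
  unfold Sn
  exact (((measurable_lpp hw _ _ _).sub_const _).sub_const _).div_const _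

end Pool.Agent.H74.DL
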