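import Pool.Agent.H74.DL.Law

/-!
Modulus of continuity of a continuous field, reindexing of a coupling, shift and reflection.
-/

open MeasureTheory ProbabilityTheory Filter Topology Set
open scoped ENNReal

namespace Pool.Agent.H74.DL

open Pool.Agent.H37.DL

/-- Modulus of continuity, in probability. -/
theorem modulus_tendsto {Ω : Type*} [MeasurableSpace Ω] {Q : Measure Ω} [IsFiniteMeasure Q]
    {T : Ω → ℝ × ℝ → ℝ} (hm : ∀ p, Measurable fun ω => T ω p) (hc : ∀ ω, Continuous (T ω))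
    (R ε : ℝ) (hε : 0 < ε) (δ : ℕ → ℝ) (hδ : Tendsto δ atTop (𝓝 0)) :
    Tendsto (fun n => Q {ω | ∃ p q : ℝ × ℝ, p ∈ Metric.closedBall (0 : ℝ × ℝ) R ∧
      q ∈ Metric.closedBall (0 : ℝ × ℝ) R ∧ dist p q ≤ δ n ∧ ε ≤ |T ω p - T ω q|}) atTop (𝓝 0) := by
  set D : ℕ → (ℝ × ℝ) × (ℝ × ℝ) := TopologicalSpace.denseSeq _ with hD
  set B : ℕ → Set Ω := fun k => {ω | ∃ m, (D m).1 ∈ Metric.ball (0 : ℝ × ℝ) (R + 1) ∧
    (D m).2 ∈ Metric.ball (0 : ℝ × ℝ) (R + 1) ∧ dist (D m).1 (D m).2 < 2 / ((k : ℝ) + 1) ∧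
    ε / 2 < |T ω (D m).1 - T ω (D m).2|} with hB
  have hBm : ∀ k, MeasurableSet (B k) := by
    intro k
    have : B k = ⋃ m, {ω | (D m).1 ∈ Metric.ball (0 : ℝ × ℝ) (R + 1) ∧
      (D m).2 ∈ Metric.ball (0 : ℝ × ℝ) (R + 1) ∧ dist (D m).1 (D m).2 < 2 / ((k : ℝ) + 1) ∧
      ε / 2 < |T ω (D m).1 - T ω (D m).2|} := by
      ext ω
      simp [hB]
    rw [this]
    refine MeasurableSet.iUnion fun m => ?_
    exact (MeasurableSet.const _).inter ((MeasurableSet.const _).inter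
      ((MeasurableSet.const _).inter
        (measurableSet_lt measurable_const (continuous_abs.measurable.comp ((hm _).sub (hm _))))))
  have hBa : Antitone B := by
    intro k l hkl ω hω
    obtain ⟨m, h1, h2, h3, h4⟩ := hω
    refine ⟨m, h1, h2, h3.trans_le ?_, h4⟩
    have : (k : ℝ) ≤ l := by exact_mod_cast hkl
    have hk : (0 : ℝ) < (k : ℝ) + 1 := by positivity
    gcongr
  have hBe : ⋂ k, B k = ∅ := by
    apply Set.eq_empty_of_forall_notMem
    intro ω hω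
    have hcomp : IsCompact (Metric.closedBall (0 : ℝ × ℝ) (R + 1)) := isCompact_closedBall _ _
    have huc := hcomp.uniformContinuousOn_of_continuous (hc ω).continuousOn
    rw [Metric.uniformContinuousOn_iff] at huc
    obtain ⟨d, hd, hd'⟩ := huc (ε / 2) (by linarith)
    obtain ⟨k, hk⟩ := exists_nat_gt (2 / d)
    have := Set.mem_iInter.1 hω k
    obtain ⟨m, h1, h2, h3, h4⟩ := this
    have h5 := hd' _ (Metric.ball_subset_closedBall h1) _ (Metric.ball_subset_closedBall h2)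
      (h3.trans (by
        rw [div_lt_iff₀ (by positivity)]
        rw [div_lt_iff₀ hd] at hk
        nlinarith))
    rw [Real.dist_eq] at h5
    linarith
  have hlim : Tendsto (fun k => Q (B k)) atTop (𝓝 0) := by
    have := tendsto_measure_iInter_atTop (μ := Q) (fun k => (hBm k).nullMeasurableSet) hBa
      ⟨0, measure_ne_top _ _⟩
    rwa [hBe, measure_empty] at this
  rw [ENNReal.tendsto_nhds_zero] at hlim ⊢
  intro e he
  obtain ⟨k, hk⟩ := (hlim e he).exists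
  have hpos : (0 : ℝ) < 1 / ((k : ℝ) + 1) := by positivity
  filter_upwards [hδ.eventually (gt_mem_nhds hpos)] with n hn
  refine (measure_mono ?_).trans hk
  rintro ω ⟨p, q, hp, hq, hpq, hT⟩
  -- the open set
  set U : Set ((ℝ × ℝ) × (ℝ × ℝ)) := {z | z.1 ∈ Metric.ball (0 : ℝ × ℝ) (R + 1) ∧
    z.2 ∈ Metric.ball (0 : ℝ × ℝ) (R + 1) ∧ dist z.1 z.2 < 2 / ((k : ℝ) + 1) ∧
    ε / 2 < |T ω z.1 - T ω z.2|} with hU
  have hUo : IsOpen U := by
    have c1 : Continuous fun z : (ℝ × ℝ) × (ℝ × ℝ) => |T ω z.1 - T ω z.2| :=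
      (((hc ω).comp continuous_fst).sub ((hc ω).comp continuous_snd)).abs
    have c2 : Continuous fun z : (ℝ × ℝ) × (ℝ × ℝ) => dist z.1 z.2 := by fun_prop
    exact ((Metric.isOpen_ball.preimage continuous_fst).inter
      ((Metric.isOpen_ball.preimage continuous_snd).inter
        ((isOpen_lt c2 continuous_const).inter (isOpen_lt continuous_const c1))))
  have hUn : U.Nonempty := by
    refine ⟨(p, q), ?_, ?_, ?_, ?_⟩
    · exact Metric.closedBall_subset_ball (by linarith) hp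
    · exact Metric.closedBall_subset_ball (by linarith) hq
    · show dist p q < _
      have : (2 : ℝ) / ((k : ℝ) + 1) = 1 / ((k : ℝ) + 1) + 1 / ((k : ℝ) + 1) := by ring
      linarith
    · show ε / 2 < |T ω p - T ω q|
      linarith
  obtain ⟨m, hm⟩ := (TopologicalSpace.denseRange_denseSeq ((ℝ × ℝ) × (ℝ × ℝ))).exists_mem_open
    hUo hUn
  exact ⟨m, hm⟩

theorem sc_pos {n : ℕ} (hn : 1 ≤ n) : 0 < sc n := by
  unfold sc
  have : (0 : ℝ) < n := by exact_mod_cast hn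
  positivity

theorem sc_tendsto : Tendsto sc atTop atTop := by
  unfold sc
  refine Tendsto.const_mul_atTop (by positivity) ?_
  exact (tendsto_rpow_atTop (by norm_num)).comp tendsto_natCast_atTop_atTop

theorem sc_div_tendsto : Tendsto (fun n : ℕ => sc n / n) atTop (𝓝 0) := by
  have h1 : Tendsto (fun n : ℕ => 2 ^ (5 / 3 : ℝ) * (n : ℝ) ^ (-(1 / 3) : ℝ)) atTop (𝓝 0) := by
    have := (tendsto_rpow_neg_atTop (y := (1 / 3 : ℝ)) (by norm_num)).comp
      (tendsto_natCast_atTop_atTop (R := ℝ))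
    simpa using this.const_mul ((2 : ℝ) ^ (5 / 3 : ℝ))
  refine h1.congr' ?_
  filter_upwards [eventually_ge_atTop 1] with n hn
  have hn' : (0 : ℝ) < n := by exact_mod_cast hn
  unfold sc
  rw [mul_div_assoc]
  congr 1
  rw [show (-(1 / 3) : ℝ) = 2 / 3 - 1 by norm_num, Real.rpow_sub_one hn'.ne']

/-- For `n` large, `2 R sc n + 2 ≤ n`. -/
theorem eventually_sc_le (R : ℝ) : ∀ᶠ n : ℕ in atTop, sc n * R + 2 ≤ n := by
  have h1 : Tendsto (fun n : ℕ => sc n / n * R + 2 / n) atTop (𝓝 0) := by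
    have h2 := sc_div_tendsto.mul_const R
    have h3 : Tendsto (fun n : ℕ => (2 : ℝ) / n) atTop (𝓝 0) :=
      tendsto_const_nhds.div_atTop tendsto_natCast_atTop_atTop
    simpa using h2.add h3
  filter_upwards [h1.eventually (gt_mem_nhds one_pos), eventually_ge_atTop 1] with n hn hn1
  have hn' : (0 : ℝ) < n := by exact_mod_cast hn1
  have : sc n / n * R + 2 / n = (sc n * R + 2) / n := by ring
  rw [this, div_lt_one hn'] at hn
  exact hn.le

/-- Reindexing a coupling. -/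
theorem Coupling.reindex {Ω : Type*} [MeasurableSpace Ω] {Q : Measure Ω} [IsFiniteMeasure Q]
    {S : Ω → ℝ × ℝ → ℝ} {w : ℕ → Ω → ℤ → ℕ → ℝ} (hc : Coupling Q S w)
    {w' : ℕ → Ω → ℤ → ℕ → ℝ} (hw' : ∀ n, IsExpWeights Q (w' n)) (τ : ℝ × ℝ → ℝ × ℝ)
    (hτ : Continuous τ) (τn : ℕ → ℝ × ℝ → ℝ × ℝ) (δ : ℕ → ℝ) (hδ : Tendsto δ atTop (𝓝 0))
    (hclose : ∀ᶠ n in atTop, ∀ p, dist (τn n p) (τ p) ≤ δ n)
    (heq : ∀ R : ℝ, ∀ᶠ n in atTop, ∀ ω, ∀ p : ℝ × ℝ, |p.1| ≤ R → |p.2| ≤ R →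
      Sn (w' n ω) n p = Sn (w n ω) n (τn n p)) :
    Coupling Q (fun ω p => S ω (τ p)) w' where
  weights := hw'
  meas p := hc.meas _
  cont ω := (hc.cont ω).comp hτ
  limit R ε hε := by
    -- image of the box is bounded
    obtain ⟨R', hR'⟩ : ∃ R' : ℝ, ∀ p : ℝ × ℝ, |p.1| ≤ R → |p.2| ≤ R →
        τ p ∈ Metric.closedBall (0 : ℝ × ℝ) R' := by
      have hcomp : IsCompact (Metric.closedBall (0 : ℝ × ℝ) R) := isCompact_closedBall _ _
      obtain ⟨R', hR'⟩ := (hcomp.image hτ).isBounded.subset_closedBall 0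
      refine ⟨R', fun p h1 h2 => hR' ⟨p, ?_, rfl⟩⟩
      rw [mem_closedBall_zero_iff, Prod.norm_def]
      exact max_le h1 h2
    have l1 := hc.limit (R' + 1) (ε / 2) (by linarith)
    have l2 := modulus_tendsto (Q := Q) hc.meas hc.cont (R' + 1) (ε / 2) (by linarith) δ hδ
    have l3 := l1.add l2
    rw [add_zero] at l3
    refine tendsto_of_tendsto_of_tendsto_of_le_of_le' tendsto_const_nhds l3
      (Eventually.of_forall fun n => zero_le) ?_
    filter_upwards [hclose, heq R, hδ.eventually (gt_mem_nhds one_pos)] with n h1 h2 h3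
    refine (measure_mono ?_).trans (measure_union_le _ _)
    rintro ω ⟨p, hp1, hp2, hp3⟩
    rw [h2 ω p hp1 hp2] at hp3
    have h4 := h1 p
    have h5 := hR' p hp1 hp2
    have h6 : τn n p ∈ Metric.closedBall (0 : ℝ × ℝ) (R' + 1) := by
      rw [Metric.mem_closedBall] at h5 ⊢
      have := dist_triangle (τn n p) (τ p) 0
      linarith
    have h7 : |(τn n p).1| ≤ R' + 1 ∧ |(τn n p).2| ≤ R' + 1 := by
      rw [mem_closedBall_zero_iff, Prod.norm_def] at h6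
      exact ⟨(le_max_left _ _).trans h6, (le_max_right _ _).trans h6⟩
    by_cases h8 : ε / 2 ≤ |Sn (w n ω) n (τn n p) - S ω (τn n p)|
    · exact Or.inl ⟨τn n p, h7.1, h7.2, h8⟩
    · refine Or.inr ⟨τn n p, τ p, h6, Metric.closedBall_subset_closedBall (by linarith) h5, h4, ?_⟩
      push Not at h8
      have := abs_sub_le (Sn (w n ω) n (τn n p)) (S ω (τn n p)) (S ω (τ p))
      linarith

theorem Sn_eq_of {w w' : ℤ → ℕ → ℝ} {n : ℕ} {p q : ℝ × ℝ}
    (h : lpp w' ⌊sc n * p.1⌋ ((n : ℤ) + ⌊sc n * p.2⌋ - ⌊sc n * p.1⌋).toNat (n - 1) =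
      lpp w ⌊sc n * q.1⌋ ((n : ℤ) + ⌊sc n * q.2⌋ - ⌊sc n * q.1⌋).toNat (n - 1))
    (h2 : ⌊sc n * p.2⌋ - ⌊sc n * p.1⌋ = ⌊sc n * q.2⌋ - ⌊sc n * q.1⌋) :
    Sn w' n p = Sn w n q := by
  unfold Sn
  have h3 : ((⌊sc n * p.2⌋ : ℝ) - ⌊sc n * p.1⌋) = ((⌊sc n * q.2⌋ : ℝ) - ⌊sc n * q.1⌋) := by
    exact_mod_cast h2
  rw [h, add_sub_assoc (n : ℝ) (⌊sc n * p.2⌋ : ℝ), h3, add_sub_assoc (n : ℝ) (⌊sc n * q.2⌋ : ℝ)]

theorem floor_sc {n : ℕ} (hn : 1 ≤ n) (k : ℤ) : ⌊sc n * ((k : ℝ) / sc n)⌋ = k := by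
  rw [mul_div_cancel₀ _ (sc_pos hn).ne', Int.floor_intCast]

theorem floor_close {n : ℕ} (hn : 1 ≤ n) (x : ℝ) : |(⌊sc n * x⌋ : ℝ) / sc n - x| ≤ 1 / sc n := by
  have h := sc_pos hn
  have h1 := Int.floor_le (sc n * x)
  have h2 := Int.lt_floor_add_one (sc n * x)
  have : (⌊sc n * x⌋ : ℝ) / sc n - x = ((⌊sc n * x⌋ : ℝ) - sc n * x) / sc n := by
    field_simp
  rw [this, abs_div, abs_of_pos h]
  apply div_le_div_of_nonneg_right _ h.le
  rw [abs_le]
  constructor <;> linarith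

theorem Coupling.shift {Ω : Type*} [MeasurableSpace Ω] {Q : Measure Ω} [IsProbabilityMeasure Q]
    {S : Ω → ℝ × ℝ → ℝ} {w : ℕ → Ω → ℤ → ℕ → ℝ} (hc : Coupling Q S w) (c : ℝ) :
    Coupling Q (fun ω p => S ω (p.1 + c, p.2 + c)) (fun n ω i j => w n ω (i + ⌊sc n * c⌋) j) := by
  refine hc.reindex ?_ (fun p => (p.1 + c, p.2 + c)) (by fun_prop)
    (fun n p => (((⌊sc n * p.1⌋ + ⌊sc n * c⌋ : ℤ) : ℝ) / sc n,
      ((⌊sc n * p.2⌋ + ⌊sc n * c⌋ : ℤ) : ℝ) / sc n)) (fun n => 2 / sc n)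
    (tendsto_const_nhds.div_atTop sc_tendsto) ?_ ?_
  · intro n
    exact expWeights_reindex (hc.weights n) (σ := fun q => (q.1 + ⌊sc n * c⌋, q.2))
      (fun a b hab => by simpa [Prod.ext_iff] using hab)
  · filter_upwards [eventually_ge_atTop 1] with n hn p
    have key : ∀ x : ℝ, |((⌊sc n * x⌋ + ⌊sc n * c⌋ : ℤ) : ℝ) / sc n - (x + c)| ≤ 2 / sc n := by
      intro x
      have h1 := floor_close hn x
      have h2 := floor_close hn c
      have h3 : ((⌊sc n * x⌋ + ⌊sc n * c⌋ : ℤ) : ℝ) / sc n - (x + c) =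
          ((⌊sc n * x⌋ : ℝ) / sc n - x) + ((⌊sc n * c⌋ : ℝ) / sc n - c) := by
        push_cast
        ring
      rw [h3]
      refine (abs_add_le _ _).trans ?_
      have : 2 / sc n = 1 / sc n + 1 / sc n := by ring
      linarith
    rw [Prod.dist_eq]
    exact max_le (by rw [Real.dist_eq]; exact key _) (by rw [Real.dist_eq]; exact key _)
  · intro R
    filter_upwards [eventually_ge_atTop 1] with n hn ω p _ _
    apply Sn_eq_of
    · simp only
      rw [floor_sc hn, floor_sc hn]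
      have e : (n : ℤ) + (⌊sc n * p.2⌋ + ⌊sc n * c⌋) - (⌊sc n * p.1⌋ + ⌊sc n * c⌋) =
          (n : ℤ) + ⌊sc n * p.2⌋ - ⌊sc n * p.1⌋ := by ring
      rw [e]
      apply lpp_congr
      intro i _ l _
      congr 1
      ring
    · simp only
      rw [floor_sc hn, floor_sc hn]
      ring

theorem Coupling.reflect {Ω : Type*} [MeasurableSpace Ω] {Q : Measure Ω} [IsProbabilityMeasure Q]
    {S : Ω → ℝ × ℝ → ℝ} {w : ℕ → Ω → ℤ → ℕ → ℝ} (hc : Coupling Q S w) :
    Coupling Q (fun ω p => S ω (-p.2, -p.1))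
      (fun n ω i j => w n ω (n - i) (if j < n then n - 1 - j else j)) := by
  refine hc.reindex ?_ (fun p => (-p.2, -p.1)) (by fun_prop)
    (fun n p => (((-⌊sc n * p.2⌋ : ℤ) : ℝ) / sc n, ((-⌊sc n * p.1⌋ : ℤ) : ℝ) / sc n))
    (fun n => 1 / sc n) (tendsto_const_nhds.div_atTop sc_tendsto) ?_ ?_
  · intro n
    refine expWeights_reindex (hc.weights n)
      (σ := fun q => ((n : ℤ) - q.1, if q.2 < n then n - 1 - q.2 else q.2)) ?_
    rintro ⟨a, b⟩ ⟨a', b'⟩ hab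
    simp only [Prod.mk.injEq] at hab ⊢
    obtain ⟨h1, h2⟩ := hab
    refine ⟨by omega, ?_⟩
    split_ifs at h2 <;> omega
  · filter_upwards [eventually_ge_atTop 1] with n hn p
    have key : ∀ x : ℝ, |((-⌊sc n * x⌋ : ℤ) : ℝ) / sc n - (-x)| ≤ 1 / sc n := by
      intro x
      have h1 := floor_close hn x
      have h3 : ((-⌊sc n * x⌋ : ℤ) : ℝ) / sc n - (-x) = -((⌊sc n * x⌋ : ℝ) / sc n - x) := by
        push_cast
        ring
      rw [h3, abs_neg]
      exact h1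
    rw [Prod.dist_eq]
    exact max_le (by rw [Real.dist_eq]; exact key _) (by rw [Real.dist_eq]; exact key _)
  · intro R
    filter_upwards [eventually_ge_atTop 1, eventually_sc_le (2 * R)] with n hn hn2 ω p hp1 hp2
    have h0 : 0 ≤ (n : ℤ) + ⌊sc n * p.2⌋ - ⌊sc n * p.1⌋ := by
      have h1 := Int.floor_le (sc n * p.1)
      have h2 := Int.lt_floor_add_one (sc n * p.2)
      have h3 := sc_pos hn
      have h4 : (0 : ℝ) ≤ (n : ℝ) + ⌊sc n * p.2⌋ - ⌊sc n * p.1⌋ := by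
        rw [abs_le] at hp1 hp2
        nlinarith
      exact_mod_cast h4
    apply Sn_eq_of
    · simp only
      rw [floor_sc hn, floor_sc hn]
      have e : (n : ℤ) + -⌊sc n * p.1⌋ - -⌊sc n * p.2⌋ =
          (n : ℤ) + ⌊sc n * p.2⌋ - ⌊sc n * p.1⌋ := by ring
      rw [e]
      apply lpp_reflect
      intro i hi l hl
      have h5 : l < n := by omega
      simp only [h5, if_true]
      congr 1
      omega
    · simp only
      rw [floor_sc hn, floor_sc hn]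
      ring

/-- The law of a composition. -/
theorem map_comp_eq {Ω Ω' : Type*} [MeasurableSpace Ω] [MeasurableSpace Ω'] {P : Measure Ω}
    {Q : Measure Ω'} {S : Ω → ℝ × ℝ → ℝ} {S' : Ω' → ℝ × ℝ → ℝ} (hm : ∀ p, Measurable fun ω => S ω p)
    (hm' : ∀ p, Measurable fun ω => S' ω p) (h : Q.map S' = P.map S) (τ : ℝ × ℝ → ℝ × ℝ) :
    Q.map (fun ω p => S' ω (τ p)) = P.map (fun ω p => S ω (τ p)) := by
  have mτ : Measurable fun (f : ℝ × ℝ → ℝ) (p : ℝ × ℝ) => f (τ p) :=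
    measurable_pi_iff.2 fun p => measurable_pi_apply _
  have h1 : Q.map (fun ω p => S' ω (τ p)) = (Q.map S').map fun (f : ℝ × ℝ → ℝ) p => f (τ p) := by
    rw [Measure.map_map mτ (measurable_pi_iff.2 hm')]
    rfl
  have h2 : P.map (fun ω p => S ω (τ p)) = (P.map S).map fun (f : ℝ × ℝ → ℝ) p => f (τ p) := by
    rw [Measure.map_map mτ (measurable_pi_iff.2 hm)]
    rfl
  rw [h1, h2, h]

theorem airy_shift {Ω : Type*} [MeasurableSpace Ω] {P : Measure Ω} {S : Ω → ℝ × ℝ → ℝ}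
    (hS : IsAirySheet P S) (c : ℝ) : IsAirySheet P fun ω p => S ω (p.1 + c, p.2 + c) where
  meas p := hS.meas _
  cont ω := (hS.cont ω).comp (by fun_prop)
  limit := by
    obtain ⟨Ω', m, Q, T, w, hQ, hc, he⟩ := exists_coupling hS
    have h := hc.shift c
    exact ⟨Ω', m, Q, _, _, hQ, h.weights, h.meas, h.cont,
      map_comp_eq hS.meas hc.meas he (fun p => (p.1 + c, p.2 + c)), h.limit⟩

theorem airy_reflect {Ω : Type*} [MeasurableSpace Ω] {P : Measure Ω} {S : Ω → ℝ × ℝ → ℝ}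
    (hS : IsAirySheet P S) : IsAirySheet P fun ω p => S ω (-p.2, -p.1) where
  meas p := hS.meas _
  cont ω := (hS.cont ω).comp (by fun_prop)
  limit := by
    obtain ⟨Ω', m, Q, T, w, hQ, hc, he⟩ := exists_coupling hS
    have h := hc.reflect
    exact ⟨Ω', m, Q, _, _, hQ, h.weights, h.meas, h.cont,
      map_comp_eq hS.meas hc.meas he (fun p => (-p.2, -p.1)), h.limit⟩

end Pool.Agent.H74.DL
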