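import Pool.Agent.H74.DL.Mod

/-!
The Harris inequality for product measures, and (8.5).
-/

open MeasureTheory ProbabilityTheory Filter Topology Set
open scoped ENNReal

namespace Pool.Agent.H74.DL

open Pool.Agent.H37.DL

/-- One dimensional case (Chebyshev). -/
theorem chebyshev {ν : Measure ℝ} [IsProbabilityMeasure ν] {F G : ℝ → ℝ≥0∞} (hF : Antitone F)
    (hG : Antitone G) : (∫⁻ x, F x ∂ν) * (∫⁻ x, G x ∂ν) ≤ ∫⁻ x, F x * G x ∂ν := by
  have mF : Measurable F := hF.measurable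
  have mG : Measurable G := hG.measurable
  have h : ∀ x y, F x * G y + F y * G x ≤ F x * G x + F y * G y := by
    intro x y
    rcases le_total x y with hxy | hxy
    · have h1 := hF hxy
      have h2 := hG hxy
      obtain ⟨a, ha⟩ := exists_add_of_le h1
      obtain ⟨b, hb⟩ := exists_add_of_le h2
      rw [ha, hb]
      have : (F y + a) * (G y + b) + F y * G y =
          ((F y + a) * G y + F y * (G y + b)) + a * b := by ring
      rw [this]
      exact le_self_add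
    · have h1 := hF hxy
      have h2 := hG hxy
      obtain ⟨a, ha⟩ := exists_add_of_le h1
      obtain ⟨b, hb⟩ := exists_add_of_le h2
      rw [ha, hb]
      have : F x * G x + (F x + a) * (G x + b) =
          (F x * (G x + b) + (F x + a) * G x) + a * b := by ring
      rw [this]
      exact le_self_add
  have h1 : ∫⁻ x, ∫⁻ y, (F x * G y + F y * G x) ∂ν ∂ν ≤
      ∫⁻ x, ∫⁻ y, (F x * G x + F y * G y) ∂ν ∂ν :=
    lintegral_mono fun x => lintegral_mono fun y => h x y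
  have e1 : ∫⁻ x, ∫⁻ y, (F x * G y + F y * G x) ∂ν ∂ν =
      2 * ((∫⁻ x, F x ∂ν) * (∫⁻ x, G x ∂ν)) := by
    have : ∀ x, ∫⁻ y, (F x * G y + F y * G x) ∂ν =
        F x * (∫⁻ y, G y ∂ν) + G x * (∫⁻ y, F y ∂ν) := by
      intro x
      rw [lintegral_add_left (mG.const_mul _), lintegral_const_mul _ mG, lintegral_mul_const _ mF,
        mul_comm (G x)]
    simp_rw [this]
    rw [lintegral_add_left (mF.mul_const _), lintegral_mul_const _ mF, lintegral_mul_const _ mG]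
    ring
  have e2 : ∫⁻ x, ∫⁻ y, (F x * G x + F y * G y) ∂ν ∂ν = 2 * ∫⁻ x, F x * G x ∂ν := by
    have : ∀ x, ∫⁻ y, (F x * G x + F y * G y) ∂ν = F x * G x + ∫⁻ y, F y * G y ∂ν := by
      intro x
      rw [lintegral_add_left measurable_const, lintegral_const, measure_univ, mul_one]
    simp_rw [this]
    have mFG : Measurable fun x => F x * G x := mF.mul mG
    rw [lintegral_add_left mFG, lintegral_const, measure_univ, mul_one, two_mul]
  rw [e1, e2] at h1
  rwa [ENNReal.mul_le_mul_iff_right two_ne_zero ENNReal.ofNat_ne_top] at h1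

/-- Harris inequality for a finite product of probability measures on the line. -/
theorem harris_fin : ∀ (m : ℕ) (ν : Fin m → Measure ℝ) [∀ i, IsProbabilityMeasure (ν i)]
    (f g : (Fin m → ℝ) → ℝ≥0∞), Antitone f → Antitone g → Measurable f → Measurable g →
    (∫⁻ z, f z ∂Measure.pi ν) * (∫⁻ z, g z ∂Measure.pi ν) ≤ ∫⁻ z, f z * g z ∂Measure.pi ν := by
  intro m
  induction m with
  | zero =>
    intro ν _ f g _ _ _ _
    rw [Measure.pi_of_empty ν 0, lintegral_dirac, lintegral_dirac, lintegral_dirac]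
  | succ m ih =>
    intro ν _ f g hf hg mf mg
    set e := (MeasurableEquiv.piFinSuccAbove (fun _ : Fin (m + 1) => ℝ) 0) with he
    have mp := (measurePreserving_piFinSuccAbove (fun i : Fin (m + 1) => ν i) 0).symm
    have hs : ∀ (x : ℝ) (y : Fin m → ℝ), e.symm (x, y) = Fin.cons x y := by
      intro x y
      rw [MeasurableEquiv.symm_apply_eq]
      simp [he, MeasurableEquiv.piFinSuccAbove, Fin.insertNthEquiv]
    have mono : ∀ x x' y y', x ≤ x' → y ≤ y' → e.symm (x, y) ≤ e.symm (x', y') := by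
      intro x x' y y' h1 h2
      rw [hs, hs]
      exact Fin.cons_le_cons.2 ⟨h1, h2⟩
    have key : ∀ h : (Fin (m + 1) → ℝ) → ℝ≥0∞, Measurable h → ∫⁻ z, h z ∂Measure.pi ν =
        ∫⁻ x, ∫⁻ y, h (e.symm (x, y)) ∂(Measure.pi fun j => ν (Fin.succAbove 0 j)) ∂(ν 0) := by
      intro h mh
      rw [← mp.lintegral_comp mh, lintegral_prod _ (by fun_prop)]
    rw [key f mf, key g mg, key (fun z => f z * g z) (mf.mul mg)]
    have mfy : ∀ h : (Fin (m + 1) → ℝ) → ℝ≥0∞, Measurable h → ∀ x, Measurable fun y =>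
        h (e.symm (x, y)) := fun h mh x => mh.comp (e.symm.measurable.comp measurable_prodMk_left)
    refine (chebyshev ?_ ?_).trans (lintegral_mono fun x => ?_)
    · intro x x' hx
      exact lintegral_mono fun y => hf (mono _ _ _ _ hx le_rfl)
    · intro x x' hx
      exact lintegral_mono fun y => hg (mono _ _ _ _ hx le_rfl)
    · exact ih _ _ _ (fun y y' h => hf (mono _ _ _ _ le_rfl h))
        (fun y y' h => hg (mono _ _ _ _ le_rfl h)) (mfy f mf x) (mfy g mg x)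

/-- Harris inequality for lower sets. -/
theorem harris_fin_set {m : ℕ} (ν : Fin m → Measure ℝ) [∀ i, IsProbabilityMeasure (ν i)]
    {A B : Set (Fin m → ℝ)} (hA : IsLowerSet A) (hB : IsLowerSet B) (mA : MeasurableSet A)
    (mB : MeasurableSet B) : Measure.pi ν A * Measure.pi ν B ≤ Measure.pi ν (A ∩ B) := by
  have anti : ∀ {C : Set (Fin m → ℝ)}, IsLowerSet C → Antitone (C.indicator (1 : (Fin m → ℝ) → ℝ≥0∞)) := by
    intro C hC y z hyz
    by_cases hz : z ∈ C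
    · rw [Set.indicator_of_mem hz, Set.indicator_of_mem (hC hyz hz)]
      exact le_rfl
    · rw [Set.indicator_of_notMem hz]
      exact zero_le
  have h := harris_fin m ν (A.indicator 1) (B.indicator 1) (anti hA) (anti hB)
    (measurable_one.indicator mA) (measurable_one.indicator mB)
  rw [lintegral_indicator_one mA, lintegral_indicator_one mB] at h
  have e : ∀ z, A.indicator (1 : (Fin m → ℝ) → ℝ≥0∞) z * B.indicator (1 : (Fin m → ℝ) → ℝ≥0∞) z =
      (A ∩ B).indicator 1 z := by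
    intro z
    rw [Set.inter_indicator_one]
    rfl
  simp_rw [e] at h
  rwa [lintegral_indicator_one (mA.inter mB)] at h

/-- Extension by zero of finitely many weights to a field. -/
noncomputable def extend (K : Finset (ℤ × ℕ)) (z : Fin K.card → ℝ) (i : ℤ) (j : ℕ) : ℝ :=
  if h : (i, j) ∈ K then z (K.equivFin ⟨(i, j), h⟩) else 0

theorem extend_mono (K : Finset (ℤ × ℕ)) {z z' : Fin K.card → ℝ} (h : z ≤ z') (i : ℤ) (j : ℕ) :
    extend K z i j ≤ extend K z' i j := by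
  unfold extend
  split_ifs with h1
  · exact h _
  · exact le_rfl

theorem measurable_extend (K : Finset (ℤ × ℕ)) (i : ℤ) (j : ℕ) :
    Measurable fun z : Fin K.card → ℝ => extend K z i j := by
  unfold extend
  split_ifs with h1
  · exact measurable_pi_apply _
  · exact measurable_const

theorem Sn_mono {w w' : ℤ → ℕ → ℝ} (h : ∀ i j, w i j ≤ w' i j) (n : ℕ) (p : ℝ × ℝ) :
    Sn w n p ≤ Sn w' n p := by
  unfold Sn
  have hr : 0 ≤ rt n := by unfold rt; positivity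
  apply div_le_div_of_nonneg_right _ hr
  have := lpp_mono (w := w) (w' := w') (a := ⌊sc n * p.1⌋)
    (k := ((n : ℤ) + ⌊sc n * p.2⌋ - ⌊sc n * p.1⌋).toNat) (j := n - 1) fun i _ l _ => h _ _
  linarith

/-- Harris inequality for the rescaled last passage times. -/
theorem harris_Sn {Ω : Type*} [MeasurableSpace Ω] {Q : Measure Ω} [IsProbabilityMeasure Q]
    {w : Ω → ℤ → ℕ → ℝ} (hw : IsExpWeights Q w) (n : ℕ) (I J : Finset ℝ) (u v : ℝ → ℝ) :
    Q {ω | ∀ x ∈ I, Sn (w ω) n (0, x) ≤ u x} * Q {ω | ∀ x ∈ J, Sn (w ω) n (0, x) ≤ v x} ≤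
      Q {ω | (∀ x ∈ I, Sn (w ω) n (0, x) ≤ u x) ∧ ∀ x ∈ J, Sn (w ω) n (0, x) ≤ v x} := by
  classical
  obtain ⟨M, hM⟩ : ∃ M : ℕ, ∀ x ∈ I ∪ J, ((n : ℤ) + ⌊sc n * x⌋ - ⌊sc n * 0⌋).toNat ≤ M := by
    refine ⟨(I ∪ J).sup fun x => ((n : ℤ) + ⌊sc n * x⌋ - ⌊sc n * 0⌋).toNat, fun x hx => ?_⟩
    exact Finset.le_sup (f := fun x => ((n : ℤ) + ⌊sc n * x⌋ - ⌊sc n * 0⌋).toNat) hx
  set K : Finset (ℤ × ℕ) := Finset.Icc (0 : ℤ) M ×ˢ Finset.range (n + 1) with hK
  set W : Ω → Fin K.card → ℝ := fun ω i => w ω (K.equivFin.symm i).1.1 (K.equivFin.symm i).1.2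
    with hW
  have hext : ∀ ω, ∀ x ∈ I ∪ J, Sn (w ω) n (0, x) = Sn (extend K (W ω)) n (0, x) := by
    intro ω x hx
    apply Sn_eq_of _ rfl
    apply lpp_congr
    intro i hi l hl
    have hi' : i ≤ M := hi.trans (hM x hx)
    have hmem : (⌊sc n * ((0 : ℝ), x).1⌋ + (i : ℤ), l) ∈ K := by
      simp only [mul_zero, Int.floor_zero, zero_add, hK, Finset.mem_product, Finset.mem_Icc,
        Finset.mem_range]
      omega
    unfold extend
    rw [dif_pos hmem, hW]
    simp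
  have mW : Measurable W := measurable_pi_iff.2 fun i => hw.meas _ _
  have lawW : Q.map W = Measure.pi fun _ : Fin K.card => expMeasure 1 := by
    have hind : iIndepFun (fun (i : Fin K.card) ω => W ω i) Q := by
      have := hw.indep.precomp (g := fun i : Fin K.card => (K.equivFin.symm i).1)
        (Subtype.val_injective.comp K.equivFin.symm.injective)
      exact this
    rw [iIndepFun_iff_map_fun_eq_pi_map (fun i => (hw.meas _ _).aemeasurable)] at hind
    have h2 : (fun i : Fin K.card => Q.map fun ω => W ω i) = fun _ => expMeasure 1 := by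
      funext i
      exact hw.law _ _
    rw [h2] at hind
    exact hind
  have msets : ∀ (L : Finset ℝ) (t : ℝ → ℝ),
      MeasurableSet {z : Fin K.card → ℝ | ∀ x ∈ L, Sn (extend K z) n (0, x) ≤ t x} := by
    intro L t
    have : {z : Fin K.card → ℝ | ∀ x ∈ L, Sn (extend K z) n (0, x) ≤ t x} =
        ⋂ x ∈ L, {z : Fin K.card → ℝ | Sn (extend K z) n (0, x) ≤ t x} := by
      ext z
      simp
    rw [this]
    exact Finset.measurableSet_biInter _ fun x _ =>
      measurableSet_le (measurable_Sn (fun i j => measurable_extend K i j) n _) measurable_const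
  have lower : ∀ (L : Finset ℝ) (t : ℝ → ℝ),
      IsLowerSet {z : Fin K.card → ℝ | ∀ x ∈ L, Sn (extend K z) n (0, x) ≤ t x} := by
    intro L t z z' hzz hz x hx
    exact (Sn_mono (extend_mono K hzz) n _).trans (hz x hx)
  have : IsProbabilityMeasure (expMeasure 1) := isProbabilityMeasure_expMeasure one_pos
  have h := harris_fin_set (fun _ : Fin K.card => expMeasure 1) (lower I u) (lower J v)
    (msets I u) (msets J v)
  rw [← lawW, Measure.map_apply mW (msets I u), Measure.map_apply mW (msets J v),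
    Measure.map_apply mW ((msets I u).inter (msets J v))] at h
  have e1 : W ⁻¹' {z : Fin K.card → ℝ | ∀ x ∈ I, Sn (extend K z) n (0, x) ≤ u x} =
      {ω | ∀ x ∈ I, Sn (w ω) n (0, x) ≤ u x} := by
    ext ω
    simp only [Set.mem_preimage, Set.mem_ofPred_eq]
    refine forall₂_congr fun x hx => ?_
    rw [hext ω x (Finset.mem_union_left _ hx)]
  have e2 : W ⁻¹' {z : Fin K.card → ℝ | ∀ x ∈ J, Sn (extend K z) n (0, x) ≤ v x} =
      {ω | ∀ x ∈ J, Sn (w ω) n (0, x) ≤ v x} := by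
    ext ω
    simp only [Set.mem_preimage, Set.mem_ofPred_eq]
    refine forall₂_congr fun x hx => ?_
    rw [hext ω x (Finset.mem_union_right _ hx)]
  rw [Set.preimage_inter, e1, e2] at h
  exact h

/-- Harris inequality for the limit, finite sets, with room. -/
theorem Coupling.harris_fin {Ω : Type*} [MeasurableSpace Ω] {Q : Measure Ω}
    [IsProbabilityMeasure Q] {S : Ω → ℝ × ℝ → ℝ} {w : ℕ → Ω → ℤ → ℕ → ℝ} (hc : Coupling Q S w)
    (I J : Finset ℝ) (u v : ℝ → ℝ) {ε : ℝ} (hε : 0 < ε) :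
    Q {ω | ∀ x ∈ I, S ω (0, x) ≤ u x} * Q {ω | ∀ x ∈ J, S ω (0, x) ≤ v x} ≤
      Q {ω | (∀ x ∈ I, S ω (0, x) ≤ u x + 2 * ε) ∧ ∀ x ∈ J, S ω (0, x) ≤ v x + 2 * ε} := by
  classical
  obtain ⟨R, hR⟩ : ∃ R : ℝ, ∀ x ∈ I ∪ J, |(0 : ℝ)| ≤ R ∧ |x| ≤ R := by
    obtain ⟨R, hR⟩ := exists_bound (fun x : {x // x ∈ I ∪ J} => ((0 : ℝ), (x : ℝ)))
    exact ⟨R, fun x hx => hR ⟨x, hx⟩⟩
  set bad : ℕ → ℝ≥0∞ := fun n => Q {ω | ∃ p : ℝ × ℝ, |p.1| ≤ R ∧ |p.2| ≤ R ∧
          ε ≤ |Sn (w n ω) n p - S ω p|} with hbad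
  have hlim : Tendsto bad atTop (𝓝 0) := hc.limit R ε hε
  have close : ∀ n ω, ω ∉ {ω | ∃ p : ℝ × ℝ, |p.1| ≤ R ∧ |p.2| ≤ R ∧
          ε ≤ |Sn (w n ω) n p - S ω p|} → ∀ x ∈ I ∪ J,
      Sn (w n ω) n (0, x) ≤ S ω (0, x) + ε ∧ S ω (0, x) ≤ Sn (w n ω) n (0, x) + ε := by
    intro n ω hω x hx
    simp only [Set.mem_ofPred_eq] at hω
    push Not at hω
    have := hω (0, x) (hR x hx).1 (hR x hx).2
    rw [abs_lt] at this
    constructor <;> linarith [this.1, this.2]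
  have step : ∀ n, Q {ω | ∀ x ∈ I, S ω (0, x) ≤ u x} * Q {ω | ∀ x ∈ J, S ω (0, x) ≤ v x} ≤
      Q {ω | (∀ x ∈ I, S ω (0, x) ≤ u x + 2 * ε) ∧ ∀ x ∈ J, S ω (0, x) ≤ v x + 2 * ε} +
        bad n + bad n + bad n := by
    intro n
    have a1 : Q {ω | ∀ x ∈ I, S ω (0, x) ≤ u x} ≤
        Q {ω | ∀ x ∈ I, Sn (w n ω) n (0, x) ≤ u x + ε} + bad n := by
      refine (measure_mono ?_).trans (measure_union_le _ _)
      intro ω hω
      by_cases hb : ω ∈ {ω | ∃ p : ℝ × ℝ, |p.1| ≤ R ∧ |p.2| ≤ R ∧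
          ε ≤ |Sn (w n ω) n p - S ω p|}
      · exact Or.inr hb
      · refine Or.inl fun x hx => ?_
        have h1 := close n ω hb x (Finset.mem_union_left _ hx)
        have h2 := hω x hx
        linarith [h1.1]
    have a2 : Q {ω | ∀ x ∈ J, S ω (0, x) ≤ v x} ≤
        Q {ω | ∀ x ∈ J, Sn (w n ω) n (0, x) ≤ v x + ε} + bad n := by
      refine (measure_mono ?_).trans (measure_union_le _ _)
      intro ω hω
      by_cases hb : ω ∈ {ω | ∃ p : ℝ × ℝ, |p.1| ≤ R ∧ |p.2| ≤ R ∧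
          ε ≤ |Sn (w n ω) n p - S ω p|}
      · exact Or.inr hb
      · refine Or.inl fun x hx => ?_
        have h1 := close n ω hb x (Finset.mem_union_right _ hx)
        have h2 := hω x hx
        linarith [h1.1]
    have a3 : Q {ω | (∀ x ∈ I, Sn (w n ω) n (0, x) ≤ u x + ε) ∧
          ∀ x ∈ J, Sn (w n ω) n (0, x) ≤ v x + ε} ≤
        Q {ω | (∀ x ∈ I, S ω (0, x) ≤ u x + 2 * ε) ∧ ∀ x ∈ J, S ω (0, x) ≤ v x + 2 * ε} +
          bad n := by
      refine (measure_mono ?_).trans (measure_union_le _ _)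
      rintro ω ⟨hω1, hω2⟩
      by_cases hb : ω ∈ {ω | ∃ p : ℝ × ℝ, |p.1| ≤ R ∧ |p.2| ≤ R ∧
          ε ≤ |Sn (w n ω) n p - S ω p|}
      · exact Or.inr hb
      · refine Or.inl ⟨fun x hx => ?_, fun x hx => ?_⟩
        · have h1 := close n ω hb x (Finset.mem_union_left _ hx)
          have h2 := hω1 x hx
          linarith [h1.2]
        · have h1 := close n ω hb x (Finset.mem_union_right _ hx)
          have h2 := hω2 x hx
          linarith [h1.2]
    have a4 := harris_Sn (hc.weights n) n I J (fun x => u x + ε) (fun x => v x + ε)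
    calc Q {ω | ∀ x ∈ I, S ω (0, x) ≤ u x} * Q {ω | ∀ x ∈ J, S ω (0, x) ≤ v x}
        ≤ (Q {ω | ∀ x ∈ I, Sn (w n ω) n (0, x) ≤ u x + ε} + bad n) *
          Q {ω | ∀ x ∈ J, S ω (0, x) ≤ v x} := by gcongr
      _ = Q {ω | ∀ x ∈ I, Sn (w n ω) n (0, x) ≤ u x + ε} * Q {ω | ∀ x ∈ J, S ω (0, x) ≤ v x} +
          bad n * Q {ω | ∀ x ∈ J, S ω (0, x) ≤ v x} := by rw [add_mul]
      _ ≤ Q {ω | ∀ x ∈ I, Sn (w n ω) n (0, x) ≤ u x + ε} * Q {ω | ∀ x ∈ J, S ω (0, x) ≤ v x} +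
          bad n * 1 := by gcongr; exact prob_le_one
      _ ≤ Q {ω | ∀ x ∈ I, Sn (w n ω) n (0, x) ≤ u x + ε} *
          (Q {ω | ∀ x ∈ J, Sn (w n ω) n (0, x) ≤ v x + ε} + bad n) + bad n * 1 := by gcongr
      _ = Q {ω | ∀ x ∈ I, Sn (w n ω) n (0, x) ≤ u x + ε} *
          Q {ω | ∀ x ∈ J, Sn (w n ω) n (0, x) ≤ v x + ε} +
          Q {ω | ∀ x ∈ I, Sn (w n ω) n (0, x) ≤ u x + ε} * bad n + bad n * 1 := by rw [mul_add]
      _ ≤ Q {ω | ∀ x ∈ I, Sn (w n ω) n (0, x) ≤ u x + ε} *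
          Q {ω | ∀ x ∈ J, Sn (w n ω) n (0, x) ≤ v x + ε} + 1 * bad n + bad n * 1 := by
          gcongr; exact prob_le_one
      _ ≤ _ := by
          rw [one_mul, mul_one]
          gcongr
          exact a4.trans a3
  have l1 : Tendsto (fun n => Q {ω | (∀ x ∈ I, S ω (0, x) ≤ u x + 2 * ε) ∧
      ∀ x ∈ J, S ω (0, x) ≤ v x + 2 * ε} + bad n + bad n + bad n) atTop
      (𝓝 (Q {ω | (∀ x ∈ I, S ω (0, x) ≤ u x + 2 * ε) ∧ ∀ x ∈ J, S ω (0, x) ≤ v x + 2 * ε})) := by
    simpa using ((tendsto_const_nhds.add hlim).add hlim).add hlim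
  exact ge_of_tendsto l1 (Eventually.of_forall step)

/-- Harris inequality for the limit, countable sets. -/
theorem Coupling.harris {Ω : Type*} [MeasurableSpace Ω] {Q : Measure Ω}
    [IsProbabilityMeasure Q] {S : Ω → ℝ × ℝ → ℝ} {w : ℕ → Ω → ℤ → ℕ → ℝ} (hc : Coupling Q S w)
    (I J : Set ℝ) (hI : I.Countable) (hJ : J.Countable) (u v : ℝ → ℝ) :
    Q {ω | ∀ x ∈ I, S ω (0, x) ≤ u x} * Q {ω | ∀ x ∈ J, S ω (0, x) ≤ v x} ≤
      Q {ω | (∀ x ∈ I, S ω (0, x) ≤ u x) ∧ ∀ x ∈ J, S ω (0, x) ≤ v x} := by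
  classical
  obtain ⟨f, hf⟩ := Set.countable_iff_exists_subset_range.1 hI
  obtain ⟨g, hg⟩ := Set.countable_iff_exists_subset_range.1 hJ
  set E : ℕ → Set Ω := fun k => {ω | (∀ i ≤ k, f i ∈ I → S ω (0, f i) ≤
    u (f i) + 2 * (1 / ((k : ℝ) + 1))) ∧ (∀ i ≤ k, g i ∈ J → S ω (0, g i) ≤
    v (g i) + 2 * (1 / ((k : ℝ) + 1)))} with hE
  have mE : ∀ k, MeasurableSet (E k) := by
    intro k
    have aux : ∀ (f : ℕ → ℝ) (I : Set ℝ) (u : ℝ → ℝ), MeasurableSet {ω | ∀ i ≤ k, f i ∈ I →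
        S ω (0, f i) ≤ u (f i) + 2 * (1 / ((k : ℝ) + 1))} := by
      intro f I u
      have : {ω | ∀ i ≤ k, f i ∈ I → S ω (0, f i) ≤ u (f i) + 2 * (1 / ((k : ℝ) + 1))} =
          ⋂ i : ℕ, {ω | i ≤ k → f i ∈ I → S ω (0, f i) ≤ u (f i) + 2 * (1 / ((k : ℝ) + 1))} := by
        ext ω
        simp
      rw [this]
      refine MeasurableSet.iInter fun i => ?_
      by_cases h1 : i ≤ k
      · by_cases h2 : f i ∈ I
        · simp only [h1, h2, forall_const]
          exact measurableSet_le (hc.meas _) measurable_const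
        · simp [h2]
      · simp [h1]
    exact (aux f I u).inter (aux g J v)
  have aE : Antitone E := by
    intro k l hkl ω hω
    have hkl' : (k : ℝ) ≤ l := by exact_mod_cast hkl
    have : 1 / ((l : ℝ) + 1) ≤ 1 / ((k : ℝ) + 1) := by
      apply one_div_le_one_div_of_le (by positivity)
      linarith
    refine ⟨fun i hi hi2 => ?_, fun i hi hi2 => ?_⟩
    · have := hω.1 i (hi.trans hkl) hi2
      linarith
    · have := hω.2 i (hi.trans hkl) hi2
      linarith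
  have iE : ⋂ k, E k = {ω | (∀ x ∈ I, S ω (0, x) ≤ u x) ∧ ∀ x ∈ J, S ω (0, x) ≤ v x} := by
    ext ω
    simp only [Set.mem_iInter, Set.mem_ofPred_eq]
    have lim : ∀ a b : ℝ, (∀ᶠ k : ℕ in atTop, a ≤ b + 2 * (1 / ((k : ℝ) + 1))) → a ≤ b := by
      intro a b h
      have h1 : Tendsto (fun k : ℕ => b + 2 * (1 / ((k : ℝ) + 1))) atTop (𝓝 b) := by
        have := (tendsto_one_div_add_atTop_nhds_zero_nat (𝕜 := ℝ)).const_mul 2
        simpa using this.const_add b
      exact ge_of_tendsto h1 h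
    constructor
    · intro h
      refine ⟨fun x hx => ?_, fun x hx => ?_⟩
      · obtain ⟨i, rfl⟩ := hf hx
        apply lim
        filter_upwards [eventually_ge_atTop i] with k hk
        exact (h k).1 i hk hx
      · obtain ⟨i, rfl⟩ := hg hx
        apply lim
        filter_upwards [eventually_ge_atTop i] with k hk
        exact (h k).2 i hk hx
    · rintro ⟨h1, h2⟩ k
      have : (0 : ℝ) ≤ 2 * (1 / ((k : ℝ) + 1)) := by positivity
      refine ⟨fun i _ hi => ?_, fun i _ hi => ?_⟩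
      · linarith [h1 _ hi]
      · linarith [h2 _ hi]
  have hlim : Tendsto (fun k => Q (E k)) atTop
      (𝓝 (Q {ω | (∀ x ∈ I, S ω (0, x) ≤ u x) ∧ ∀ x ∈ J, S ω (0, x) ≤ v x})) := by
    rw [← iE]
    exact tendsto_measure_iInter_atTop (fun k => (mE k).nullMeasurableSet) aE
      ⟨0, measure_ne_top _ _⟩
  refine ge_of_tendsto hlim (Eventually.of_forall fun k => ?_)
  set I' : Finset ℝ := ((Finset.range (k + 1)).image f).filter (· ∈ I) with hI'
  set J' : Finset ℝ := ((Finset.range (k + 1)).image g).filter (· ∈ J) with hJ'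
  have key := hc.harris_fin I' J' u v (ε := 1 / ((k : ℝ) + 1)) (by positivity)
  refine (mul_le_mul' (measure_mono ?_) (measure_mono ?_)).trans (key.trans (measure_mono ?_))
  · intro ω hω x hx
    exact hω x (Finset.mem_filter.1 hx).2
  · intro ω hω x hx
    exact hω x (Finset.mem_filter.1 hx).2
  · rintro ω ⟨h1, h2⟩
    refine ⟨fun i hi hi2 => h1 _ ?_, fun i hi hi2 => h2 _ ?_⟩
    · rw [hI', Finset.mem_filter, Finset.mem_image]
      exact ⟨⟨i, Finset.mem_range.2 (by omega), rfl⟩, hi2⟩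
    · rw [hJ', Finset.mem_filter, Finset.mem_image]
      exact ⟨⟨i, Finset.mem_range.2 (by omega), rfl⟩, hi2⟩

theorem airy_harris {Ω : Type*} [MeasurableSpace Ω] {P : Measure Ω} {S : Ω → ℝ × ℝ → ℝ}
    (hS : IsAirySheet P S) (I J : Set ℝ) (hI : I.Countable) (hJ : J.Countable) (u v : ℝ → ℝ) :
    P {ω | ∀ x ∈ I, S ω (0, x) ≤ u x} * P {ω | ∀ x ∈ J, S ω (0, x) ≤ v x} ≤
      P {ω | (∀ x ∈ I, S ω (0, x) ≤ u x) ∧ ∀ x ∈ J, S ω (0, x) ≤ v x} := by
  obtain ⟨Ω', m, Q, T, w, hQ, hc, he⟩ := exists_coupling hS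
  have hm : ∀ (I : Set ℝ), I.Countable → ∀ u : ℝ → ℝ,
      MeasurableSet {f : ℝ × ℝ → ℝ | ∀ x ∈ I, f (0, x) ≤ u x} := by
    intro I hI u
    have : {f : ℝ × ℝ → ℝ | ∀ x ∈ I, f (0, x) ≤ u x} =
        ⋂ x ∈ I, {f : ℝ × ℝ → ℝ | f (0, x) ≤ u x} := by
      ext f
      simp
    rw [this]
    exact MeasurableSet.biInter hI fun x _ => measurableSet_le (measurable_pi_apply _)
      measurable_const
  have key := hc.harris I J hI hJ u v
  have mS : Measurable S := measurable_pi_iff.2 hS.meas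
  have tr : ∀ B : Set (ℝ × ℝ → ℝ), MeasurableSet B → Q (T ⁻¹' B) = P (S ⁻¹' B) := by
    intro B hB
    rw [← Measure.map_apply hc.measurable hB, he, Measure.map_apply mS hB]
  have e1 := tr _ (hm I hI u)
  have e2 := tr _ (hm J hJ v)
  have e3 := tr _ ((hm I hI u).inter (hm J hJ v))
  have k2 : Q (T ⁻¹' {f : ℝ × ℝ → ℝ | ∀ x ∈ I, f (0, x) ≤ u x}) *
      Q (T ⁻¹' {f : ℝ × ℝ → ℝ | ∀ x ∈ J, f (0, x) ≤ v x}) ≤
      Q (T ⁻¹' ({f : ℝ × ℝ → ℝ | ∀ x ∈ I, f (0, x) ≤ u x} ∩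
        {f : ℝ × ℝ → ℝ | ∀ x ∈ J, f (0, x) ≤ v x})) := key
  rw [e1, e2, e3] at k2
  exact k2

end Pool.Agent.H74.DL
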