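import Pool.Agent.H74.DL.Lpp

/-!
Laws of the weights, finite dimensional convergence, uniqueness of the law of the Airy sheet.
-/

open MeasureTheory ProbabilityTheory Filter Topology Set
open scoped ENNReal

namespace Pool.Agent.H74.DL

open Pool.Agent.H37.DL

section

variable {Ω : Type*} [MeasurableSpace Ω] {Q : Measure Ω} [IsProbabilityMeasure Q]
  {w : Ω → ℤ → ℕ → ℝ}

theorem map_field (hw : IsExpWeights Q w) :
    Q.map (fun ω (q : ℤ × ℕ) => w ω q.1 q.2) = Measure.infinitePi fun _ => expMeasure 1 := by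
  have h := hw.indep.map_fun_eq_infinitePi_map (fun q : ℤ × ℕ => hw.meas q.1 q.2)
  rw [h]
  congr 1
  funext q
  exact hw.law q.1 q.2

theorem expWeights_reindex (hw : IsExpWeights Q w) {σ : ℤ × ℕ → ℤ × ℕ}
    (hσ : Function.Injective σ) :
    IsExpWeights Q (fun ω i j => w ω (σ (i, j)).1 (σ (i, j)).2) where
  meas i j := hw.meas _ _
  law i j := hw.law _ _
  indep := hw.indep.precomp hσ

end

/-- Two fields of exponential weights have the same law. -/
theorem map_functional_eq {Ω Ω' : Type*} [MeasurableSpace Ω] [MeasurableSpace Ω'] {Q : Measure Ω}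
    {Q' : Measure Ω'} [IsProbabilityMeasure Q] [IsProbabilityMeasure Q'] {w : Ω → ℤ → ℕ → ℝ}
    {w' : Ω' → ℤ → ℕ → ℝ} (hw : IsExpWeights Q w) (hw' : IsExpWeights Q' w') {E : Type*}
    [MeasurableSpace E] (Φ : (ℤ → ℕ → ℝ) → E)
    (hΦ : Measurable fun u : ℤ × ℕ → ℝ => Φ fun i j => u (i, j)) :
    Q.map (fun ω => Φ (w ω)) = Q'.map (fun ω => Φ (w' ω)) := by
  have h1 : Q.map (fun ω => Φ (w ω)) =
      (Q.map (fun ω (q : ℤ × ℕ) => w ω q.1 q.2)).map (fun u : ℤ × ℕ → ℝ => Φ fun i j => u (i, j)) := by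
    rw [Measure.map_map hΦ (measurable_pi_iff.2 fun q => hw.meas q.1 q.2)]
    rfl
  have h2 : Q'.map (fun ω => Φ (w' ω)) =
      (Q'.map (fun ω (q : ℤ × ℕ) => w' ω q.1 q.2)).map
        (fun u : ℤ × ℕ → ℝ => Φ fun i j => u (i, j)) := by
    rw [Measure.map_map hΦ (measurable_pi_iff.2 fun q => hw'.meas q.1 q.2)]
    rfl
  rw [h1, h2, map_field hw, map_field hw']

theorem measurable_Sn_field (n : ℕ) {ι : Type*} (F : ι → ℝ × ℝ) :
    Measurable fun (u : ℤ × ℕ → ℝ) (i : ι) => Sn (fun i j => u (i, j)) n (F i) := by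
  apply measurable_pi_iff.2
  intro i
  exact measurable_Sn (fun a b => measurable_pi_apply (a, b)) n (F i)

/-- A coupling of the Airy sheet. -/
structure Coupling {Ω : Type*} [MeasurableSpace Ω] (Q : Measure Ω) (S : Ω → ℝ × ℝ → ℝ)
    (w : ℕ → Ω → ℤ → ℕ → ℝ) : Prop where
  weights : ∀ n, IsExpWeights Q (w n)
  meas : ∀ p, Measurable fun ω => S ω p
  cont : ∀ ω, Continuous (S ω)
  limit : ∀ R : ℝ, ∀ ε : ℝ, 0 < ε → Tendsto
        (fun n : ℕ => Q {ω | ∃ p : ℝ × ℝ, |p.1| ≤ R ∧ |p.2| ≤ R ∧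
          ε ≤ |Sn (w n ω) n p - S ω p|}) atTop (𝓝 0)

theorem exists_coupling {Ω : Type*} [MeasurableSpace Ω] {P : Measure Ω} {S : Ω → ℝ × ℝ → ℝ}
    (hS : IsAirySheet P S) : ∃ (Ω' : Type) (_ : MeasurableSpace Ω') (Q : Measure Ω')
      (S' : Ω' → ℝ × ℝ → ℝ) (w : ℕ → Ω' → ℤ → ℕ → ℝ), IsProbabilityMeasure Q ∧
      Coupling Q S' w ∧ Q.map S' = P.map S := by
  obtain ⟨Ω', m, Q, S', w, h1, h2, h3, h4, h5, h6⟩ := hS.limit
  exact ⟨Ω', m, Q, S', w, h1, ⟨h2, h3, h4, h6⟩, h5⟩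

theorem exists_bound {ι : Type*} [Finite ι] (F : ι → ℝ × ℝ) :
    ∃ R : ℝ, ∀ i, |(F i).1| ≤ R ∧ |(F i).2| ≤ R := by
  obtain ⟨R, hR⟩ := (Set.finite_range fun i => max |(F i).1| |(F i).2|).bddAbove
  refine ⟨R, fun i => ?_⟩
  have := hR ⟨i, rfl⟩
  exact ⟨(le_max_left _ _).trans this, (le_max_right _ _).trans this⟩

section

variable {Ω : Type*} [MeasurableSpace Ω] {Q : Measure Ω} [IsProbabilityMeasure Q]
  {S : Ω → ℝ × ℝ → ℝ} {w : ℕ → Ω → ℤ → ℕ → ℝ}

theorem Coupling.tendstoInMeasure (hc : Coupling Q S w) {ι : Type*} [Fintype ι]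
    (F : ι → ℝ × ℝ) :
    TendstoInMeasure Q (fun n ω (i : ι) => Sn (w n ω) n (F i)) atTop (fun ω i => S ω (F i)) := by
  obtain ⟨R, hR⟩ := exists_bound F
  rw [tendstoInMeasure_iff_dist]
  intro ε hε
  refine tendsto_of_tendsto_of_tendsto_of_le_of_le tendsto_const_nhds (hc.limit R (ε / 2) (by linarith))
    (fun n => zero_le) (fun n => measure_mono ?_)
  intro ω hω
  simp only [Set.mem_ofPred_eq] at hω ⊢
  by_contra hcon
  push Not at hcon
  have : dist (fun i : ι => Sn (w n ω) n (F i)) (fun i => S ω (F i)) ≤ ε / 2 := by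
    rw [dist_pi_le_iff (by linarith)]
    intro i
    rw [Real.dist_eq]
    exact (hcon (F i) (hR i).1 (hR i).2).le
  linarith

theorem Coupling.measurable (hc : Coupling Q S w) : Measurable S :=
  measurable_pi_iff.2 hc.meas

end

/-- Finite dimensional laws of two couplings agree. -/
theorem Coupling.map_eq {Ω Ω' : Type*} [MeasurableSpace Ω] [MeasurableSpace Ω'] {Q : Measure Ω}
    {Q' : Measure Ω'} [IsProbabilityMeasure Q] [IsProbabilityMeasure Q'] {S : Ω → ℝ × ℝ → ℝ}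
    {S' : Ω' → ℝ × ℝ → ℝ} {w : ℕ → Ω → ℤ → ℕ → ℝ} {w' : ℕ → Ω' → ℤ → ℕ → ℝ}
    (hc : Coupling Q S w) (hc' : Coupling Q' S' w') {ι : Type*} [Fintype ι] (F : ι → ℝ × ℝ) :
    Q.map (fun ω i => S ω (F i)) = Q'.map (fun ω i => S' ω (F i)) := by
  have m1 : ∀ n, Measurable fun ω (i : ι) => Sn (w n ω) n (F i) := fun n =>
    measurable_pi_iff.2 fun i => measurable_Sn (hc.weights n).meas n (F i)
  have m2 : ∀ n, Measurable fun ω (i : ι) => Sn (w' n ω) n (F i) := fun n =>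
    measurable_pi_iff.2 fun i => measurable_Sn (hc'.weights n).meas n (F i)
  have h1 := (hc.tendstoInMeasure F).tendstoInDistribution (fun n => (m1 n).aemeasurable)
  have h2 := (hc'.tendstoInMeasure F).tendstoInDistribution (fun n => (m2 n).aemeasurable)
  have h3 := h1.tendsto
  have h4 := h2.tendsto
  have e : ∀ n, Q.map (fun ω (i : ι) => Sn (w n ω) n (F i)) =
      Q'.map (fun ω (i : ι) => Sn (w' n ω) n (F i)) := fun n =>
    map_functional_eq (hc.weights n) (hc'.weights n) (fun u i => Sn u n (F i))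
      (measurable_Sn_field n F)
  have h5 : (fun n => (⟨Q.map (fun ω (i : ι) => Sn (w n ω) n (F i)),
      Measure.isProbabilityMeasure_map (m1 n).aemeasurable⟩ : ProbabilityMeasure (ι → ℝ))) =
      (fun n => (⟨Q'.map (fun ω (i : ι) => Sn (w' n ω) n (F i)),
      Measure.isProbabilityMeasure_map (m2 n).aemeasurable⟩ : ProbabilityMeasure (ι → ℝ))) := by
    funext n
    exact Subtype.ext (e n)
  rw [h5] at h3
  have h6 := tendsto_nhds_unique h3 h4
  exact congrArg Subtype.val h6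

/-- Measures on a product space are determined by their finite dimensional marginals. -/
theorem ext_of_finite {κ : Type*} {μ ν : Measure (κ → ℝ)} [IsFiniteMeasure μ]
    (h : ∀ I : Finset κ, μ.map (fun f (i : I) => f i) = ν.map (fun f (i : I) => f i)) : μ = ν := by
  have h1 : IsProjectiveLimit μ (fun I : Finset κ => μ.map (fun f (i : I) => f i)) := fun I => rfl
  have h2 : IsProjectiveLimit ν (fun I : Finset κ => μ.map (fun f (i : I) => f i)) := fun I =>
    (h I).symm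
  exact h1.unique h2

theorem coupling_law_unique {Ω Ω' : Type*} [MeasurableSpace Ω] [MeasurableSpace Ω'] {Q : Measure Ω}
    {Q' : Measure Ω'} [IsProbabilityMeasure Q] [IsProbabilityMeasure Q'] {S : Ω → ℝ × ℝ → ℝ}
    {S' : Ω' → ℝ × ℝ → ℝ} {w : ℕ → Ω → ℤ → ℕ → ℝ} {w' : ℕ → Ω' → ℤ → ℕ → ℝ}
    (hc : Coupling Q S w) (hc' : Coupling Q' S' w') : Q.map S = Q'.map S' := by
  have : IsProbabilityMeasure (Q.map S) := Measure.isProbabilityMeasure_map hc.measurable.aemeasurable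
  apply ext_of_finite
  intro I
  rw [Measure.map_map (by fun_prop) hc.measurable, Measure.map_map (by fun_prop) hc'.measurable]
  exact hc.map_eq hc' (fun i : I => (i : ℝ × ℝ))

/-- The law of the Airy sheet is unique. -/
theorem airy_unique {Ω Ω' : Type*} [MeasurableSpace Ω] [MeasurableSpace Ω'] {P : Measure Ω}
    {P' : Measure Ω'} {S : Ω → ℝ × ℝ → ℝ} {S' : Ω' → ℝ × ℝ → ℝ} (hS : IsAirySheet P S)
    (hS' : IsAirySheet P' S') : P.map S = P'.map S' := by
  obtain ⟨_, _, Q, T, w, hQ, hc, he⟩ := exists_coupling hS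
  obtain ⟨_, _, Q', T', w', hQ', hc', he'⟩ := exists_coupling hS'
  rw [← he, ← he']
  exact coupling_law_unique hc hc'

end Pool.Agent.H74.DL
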