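import Pool.Agent.H74.DL.Mod

/-!
The quadrangle inequality (8.4).
-/

open MeasureTheory ProbabilityTheory Filter Topology Set
open scoped ENNReal

namespace Pool.Agent.H74.DL

open Pool.Agent.H37.DL

theorem Sn_quad (w : ℤ → ℕ → ℝ) {n : ℕ} (hn : 1 ≤ n) {R : ℝ} (hR : sc n * (2 * R) + 2 ≤ n)
    {x x' y y' : ℝ} (hx : x ≤ x') (hy : y ≤ y') (h1 : |x'| ≤ R) (h2 : |y| ≤ R) :
    Sn w n (x, y') + Sn w n (x', y) ≤ Sn w n (x, y) + Sn w n (x', y') := by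
  have hs := sc_pos hn
  have hr : 0 < rt n := by
    unfold rt
    have : (0 : ℝ) < n := by exact_mod_cast hn
    positivity
  have f1 : ⌊sc n * x⌋ ≤ ⌊sc n * x'⌋ := Int.floor_le_floor (by gcongr)
  have f2 : ⌊sc n * y⌋ ≤ ⌊sc n * y'⌋ := Int.floor_le_floor (by gcongr)
  have f3 : ⌊sc n * x'⌋ ≤ (n : ℤ) + ⌊sc n * y⌋ := by
    have e1 := Int.floor_le (sc n * x')
    have e2 := Int.lt_floor_add_one (sc n * y)
    have h4 : (⌊sc n * x'⌋ : ℝ) ≤ (n : ℝ) + ⌊sc n * y⌋ := by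
      rw [abs_le] at h1 h2
      nlinarith
    exact_mod_cast h4
  obtain ⟨d, hd⟩ := Int.eq_ofNat_of_zero_le (sub_nonneg.2 f1)
  obtain ⟨e, he⟩ := Int.eq_ofNat_of_zero_le (sub_nonneg.2 f2)
  obtain ⟨i, hi⟩ := Int.eq_ofNat_of_zero_le (sub_nonneg.2 f3)
  have key := lpp_quad w ⌊sc n * x⌋ d i e (n - 1)
  have g1 : ((n : ℤ) + ⌊sc n * y'⌋ - ⌊sc n * x⌋).toNat = d + (i + e) := by omega
  have g2 : ((n : ℤ) + ⌊sc n * y⌋ - ⌊sc n * x'⌋).toNat = i := by omega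
  have g3 : ((n : ℤ) + ⌊sc n * y⌋ - ⌊sc n * x⌋).toNat = d + i := by omega
  have g4 : ((n : ℤ) + ⌊sc n * y'⌋ - ⌊sc n * x'⌋).toNat = i + e := by omega
  have g5 : ⌊sc n * x⌋ + d = ⌊sc n * x'⌋ := by omega
  rw [g5] at key
  simp only [Sn]
  rw [g1, g2, g3, g4, ← add_div, ← add_div]
  apply div_le_div_of_nonneg_right _ hr.le
  linarith

/-- Quadrangle inequality at fixed points. -/
theorem Coupling.quad {Ω : Type*} [MeasurableSpace Ω] {Q : Measure Ω}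
    {S : Ω → ℝ × ℝ → ℝ} {w : ℕ → Ω → ℤ → ℕ → ℝ} (hc : Coupling Q S w) {x x' y y' : ℝ}
    (hx : x ≤ x') (hy : y ≤ y') :
    Q {ω | S ω (x, y) + S ω (x', y') < S ω (x, y') + S ω (x', y)} = 0 := by
  set R : ℝ := max (max |x| |x'|) (max |y| |y'|) with hR
  have rx : |x| ≤ R := (le_max_left _ _).trans (le_max_left _ _)
  have rx' : |x'| ≤ R := (le_max_right _ _).trans (le_max_left _ _)
  have ry : |y| ≤ R := (le_max_left _ _).trans (le_max_right _ _)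
  have ry' : |y'| ≤ R := (le_max_right _ _).trans (le_max_right _ _)
  have main : ∀ ε : ℝ, 0 < ε →
      Q {ω | S ω (x, y) + S ω (x', y') + 4 * ε ≤ S ω (x, y') + S ω (x', y)} = 0 := by
    intro ε hε
    have h1 := hc.limit R ε hε
    apply le_antisymm _ (zero_le)
    refine ge_of_tendsto h1 ?_
    filter_upwards [eventually_ge_atTop 1, eventually_sc_le (2 * R)] with n hn hn2
    apply measure_mono
    intro ω hω
    simp only [Set.mem_ofPred_eq] at hω ⊢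
    by_contra hcon
    push Not at hcon
    have k1 := hcon (x, y) rx ry
    have k2 := hcon (x', y') rx' ry'
    have k3 := hcon (x, y') rx ry'
    have k4 := hcon (x', y) rx' ry
    have k5 := Sn_quad (w n ω) hn hn2 hx hy rx' ry
    rw [abs_lt] at k1 k2 k3 k4
    linarith [k1.1, k1.2, k2.1, k2.2, k3.1, k3.2, k4.1, k4.2]
  have hsub : {ω | S ω (x, y) + S ω (x', y') < S ω (x, y') + S ω (x', y)} ⊆
      ⋃ k : ℕ, {ω | S ω (x, y) + S ω (x', y') + 4 * (1 / ((k : ℝ) + 1)) ≤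
        S ω (x, y') + S ω (x', y)} := by
    intro ω hω
    simp only [Set.mem_ofPred_eq] at hω
    obtain ⟨k, hk⟩ := exists_nat_one_div_lt (sub_pos.2 hω |> fun h => div_pos h (by norm_num : (0 : ℝ) < 4))
    rw [Set.mem_iUnion]
    refine ⟨k, ?_⟩
    simp only [Set.mem_ofPred_eq]
    linarith
  refine measure_mono_null hsub (measure_iUnion_null fun k => main _ (by positivity))

theorem airy_quad {Ω : Type*} [MeasurableSpace Ω] {P : Measure Ω} {S : Ω → ℝ × ℝ → ℝ}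
    (hS : IsAirySheet P S) : ∀ᵐ ω ∂P, ∀ x x' y y', x ≤ x' → y ≤ y' →
    S ω (x, y') + S ω (x', y) ≤ S ω (x, y) + S ω (x', y') := by
  obtain ⟨Ω', m, Q, T, w, hQ, hc, he⟩ := exists_coupling hS
  have fixed : ∀ x x' y y', x ≤ x' → y ≤ y' → ∀ᵐ ω ∂P,
      S ω (x, y') + S ω (x', y) ≤ S ω (x, y) + S ω (x', y') := by
    intro x x' y y' hx hy
    have hB : MeasurableSet {f : ℝ × ℝ → ℝ | f (x, y) + f (x', y') < f (x, y') + f (x', y)} :=
      measurableSet_lt (by fun_prop) (by fun_prop)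
    have h1 := hc.quad hx hy
    have h2 : Q.map T {f : ℝ × ℝ → ℝ | f (x, y) + f (x', y') < f (x, y') + f (x', y)} = 0 := by
      rw [Measure.map_apply hc.measurable hB]
      exact h1
    rw [he, Measure.map_apply (measurable_pi_iff.2 hS.meas) hB] at h2
    rw [ae_iff]
    simp only [not_le]
    exact h2
  have all : ∀ᵐ ω ∂P, ∀ m : ℕ,
      (TopologicalSpace.denseSeq ((ℝ × ℝ) × (ℝ × ℝ)) m).1.1 ≤
        (TopologicalSpace.denseSeq ((ℝ × ℝ) × (ℝ × ℝ)) m).1.2 →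
      (TopologicalSpace.denseSeq ((ℝ × ℝ) × (ℝ × ℝ)) m).2.1 ≤
        (TopologicalSpace.denseSeq ((ℝ × ℝ) × (ℝ × ℝ)) m).2.2 →
      S ω ((TopologicalSpace.denseSeq ((ℝ × ℝ) × (ℝ × ℝ)) m).1.1,
          (TopologicalSpace.denseSeq ((ℝ × ℝ) × (ℝ × ℝ)) m).2.2) +
        S ω ((TopologicalSpace.denseSeq ((ℝ × ℝ) × (ℝ × ℝ)) m).1.2,
          (TopologicalSpace.denseSeq ((ℝ × ℝ) × (ℝ × ℝ)) m).2.1) ≤
      S ω ((TopologicalSpace.denseSeq ((ℝ × ℝ) × (ℝ × ℝ)) m).1.1,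
          (TopologicalSpace.denseSeq ((ℝ × ℝ) × (ℝ × ℝ)) m).2.1) +
        S ω ((TopologicalSpace.denseSeq ((ℝ × ℝ) × (ℝ × ℝ)) m).1.2,
          (TopologicalSpace.denseSeq ((ℝ × ℝ) × (ℝ × ℝ)) m).2.2) := by
    rw [ae_all_iff]
    intro m
    rw [eventually_imp_distrib_left]
    intro h1
    rw [eventually_imp_distrib_left]
    intro h2
    exact fixed _ _ _ _ h1 h2
  filter_upwards [all] with ω hω x x' y y' hx hy
  rcases hx.eq_or_lt with rfl | hx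
  · rw [add_comm]
  rcases hy.eq_or_lt with rfl | hy
  · exact le_rfl
  by_contra hcon
  push Not at hcon
  have hcS := hS.cont ω
  have hUo : IsOpen {z : (ℝ × ℝ) × (ℝ × ℝ) | z.1.1 < z.1.2 ∧ z.2.1 < z.2.2 ∧
      S ω (z.1.1, z.2.1) + S ω (z.1.2, z.2.2) < S ω (z.1.1, z.2.2) + S ω (z.1.2, z.2.1)} := by
    have c : ∀ g h : (ℝ × ℝ) × (ℝ × ℝ) → ℝ, Continuous g → Continuous h →
        Continuous fun z => S ω (g z, h z) := fun g h hg hh => hcS.comp (hg.prodMk hh)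
    have o1 : IsOpen {z : (ℝ × ℝ) × (ℝ × ℝ) | z.1.1 < z.1.2} :=
      isOpen_lt (by fun_prop) (by fun_prop)
    have o2 : IsOpen {z : (ℝ × ℝ) × (ℝ × ℝ) | z.2.1 < z.2.2} :=
      isOpen_lt (by fun_prop) (by fun_prop)
    have o3 : IsOpen {z : (ℝ × ℝ) × (ℝ × ℝ) |
        S ω (z.1.1, z.2.1) + S ω (z.1.2, z.2.2) < S ω (z.1.1, z.2.2) + S ω (z.1.2, z.2.1)} := by
      refine isOpen_lt ?_ ?_
      · exact (c (fun z => z.1.1) (fun z => z.2.1) (by fun_prop) (by fun_prop)).add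
          (c (fun z => z.1.2) (fun z => z.2.2) (by fun_prop) (by fun_prop))
      · exact (c (fun z => z.1.1) (fun z => z.2.2) (by fun_prop) (by fun_prop)).add
          (c (fun z => z.1.2) (fun z => z.2.1) (by fun_prop) (by fun_prop))
    exact o1.inter (o2.inter o3)
  obtain ⟨m, hm1, hm2, hm3⟩ :=
    (TopologicalSpace.denseRange_denseSeq ((ℝ × ℝ) × (ℝ × ℝ))).exists_mem_open
      hUo ⟨((x, x'), (y, y')), hx, hy, hcon⟩
  exact absurd (hω m hm1.le hm2.le) (not_le.2 hm3)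

end Pool.Agent.H74.DL
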